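import Pool.Agent.helper84.LP.SpecG

/-!
# MP_07c750_an, project LP: the counting half of row `lp:BKA` (helper93)
-/

open scoped MatrixGroups ContDiff Topology UpperHalfPlane ComplexConjugate
open UpperHalfPlane MeasureTheory Filter Set

set_option autoImplicit false

namespace Pool.Agent.LP

open Pool.Agent.RS
open Pool.Agent.MS (bq BB BA SF pf)
open Pool.Agent.HV (FW)
open Pool.Agent.EN (XG MG mkX mkM fl pr)
open Pool.Agent.ER (Low LowJ)

noncomputable section

/-- integers in an interval of length `r` -/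
theorem BKA1_cnt (D : Finset ℤ) (x r : ℝ) (hr : 0 ≤ r) (h : ∀ d ∈ D, x ≤ (d : ℝ) ∧ (d : ℝ) ≤ x + r) : (D.card : ℝ) ≤ r + 1 := by
  have h1 : D ⊆ Finset.Icc ⌈x⌉ ⌊x + r⌋ := by
    intro d hd
    rw [Finset.mem_Icc]
    exact ⟨Int.ceil_le.2 (h d hd).1, Int.le_floor.2 (h d hd).2⟩
  have h2 : D.card ≤ (Finset.Icc ⌈x⌉ ⌊x + r⌋).card := Finset.card_le_card h1
  rw [Int.card_Icc] at h2
  have h3 : (D.card : ℝ) ≤ ((⌊x + r⌋ + 1 - ⌈x⌉).toNat : ℝ) := by exact_mod_cast h2
  rcases le_or_gt 0 (⌊x + r⌋ + 1 - ⌈x⌉) with h4 | h4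
  · have h5 : ((⌊x + r⌋ + 1 - ⌈x⌉).toNat : ℝ) = ((⌊x + r⌋ + 1 - ⌈x⌉ : ℤ) : ℝ) := by
      have := Int.toNat_of_nonneg h4
      exact_mod_cast this
    rw [h5] at h3
    push_cast at h3
    have h6 : (⌊x + r⌋ : ℝ) ≤ x + r := Int.floor_le _
    have h7 : x ≤ (⌈x⌉ : ℝ) := Int.le_ceil _
    linarith
  · have h5 : (⌊x + r⌋ + 1 - ⌈x⌉).toNat = 0 := Int.toNat_eq_zero.2 h4.le
    rw [h5] at h3
    simp only [Nat.cast_zero] at h3
    linarith

theorem BKA1_nG (G m : ℕ) : Real.exp (G * m) ≤ (nG G m : ℝ) ∧ (nG G m : ℝ) ≤ 2 * Real.exp (G * m) := by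
  unfold nG
  refine ⟨Nat.le_ceil _, ?_⟩
  have h1 : ((⌈Real.exp (G * m)⌉₊ : ℕ) : ℝ) < Real.exp (G * m) + 1 := Nat.ceil_lt_add_one (Real.exp_pos _).le
  have h2 : (1 : ℝ) ≤ Real.exp (G * m) := Real.one_le_exp (by positivity)
  linarith

theorem BKA1_aM (s t : ℝ) : aM (s + t) = aM s * aM t := by
  ext i j
  fin_cases i <;> fin_cases j <;> simp [aM, Matrix.mul_apply, Fin.sum_univ_two, ← Real.exp_add] <;> ring_nf

/-- floor division -/
theorem BKA1_div (j : ℤ) (N : ℕ) (hN : 0 < N) : ((j / (N : ℤ) : ℤ) : ℝ) * N ≤ j ∧ (j : ℝ) < ((j / (N : ℤ) : ℤ) : ℝ) * N + N := by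
  have hN' : (0 : ℤ) < (N : ℤ) := by exact_mod_cast hN
  have h1 : (j / (N : ℤ)) * (N : ℤ) ≤ j := Int.ediv_mul_le j hN'.ne'
  have h2 : j < (j / (N : ℤ)) * (N : ℤ) + (N : ℤ) := Int.lt_ediv_add_one_mul_self j hN' |>.trans_eq (by ring)
  constructor
  · exact_mod_cast h1
  · exact_mod_cast h2

theorem BKA1_JC_mono {W W' : Set SL(2, ℝ)} {εc l l0 : ℝ} {g : SL(2, ℝ)} {j : ℤ} (h : W ⊆ W') (hj : IR.JC W εc l l0 g j) : IR.JC W' εc l l0 g j := by
  obtain ⟨h1, u, hu, x, τ, o, e, he, hx, hτ, ho, hW⟩ := hj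
  exact ⟨h1, u, hu, x, τ, o, e, he, hx, hτ, ho, h hW⟩

/-- **The counting half of BKA**, general form. -/
theorem BKA1_gen (hCTD : CTD_stmt) (Γ : Subgroup SL(2, ℝ)) (hΓ : QU.SurfaceGroup Γ) (Λ2 : ℝ) (hΛ : 10 ≤ Λ2) : ∃ C1 : ℝ, 1 ≤ C1 ∧
    ∀ (a η b : ℝ) (G m : ℕ) (εc l l0 : ℝ) (A : ℕ → Finset SL(2, ℝ)) (g : SL(2, ℝ)) (J : Finset ℤ), 1 ≤ G → 1 ≤ m →
      εc = Real.pi / (2 * Λ2) * Real.exp (-(2 * (G * m))) → 0 < b → b ≤ 1 / 1600 → (∀ i : ℕ, 1 ≤ i → i ≤ G → ((A i).card : ℝ) ≤ Real.exp ((a + η) * (i * m))) →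
      0 ≤ l → l ≤ l0 → l0 ≤ εc / 100 →
      (∀ j ∈ J, IR.JC {k | ∀ i : ℕ, 1 ≤ i → i ≤ G → k * aM (-(2 * (G * m))) * aM (G * m) ∈ FW Γ (A i) (16 * b) (Real.exp (-(i * m)))} εc l l0 g j) →
      AR C1 a η G m (DJ G m J) := by
  obtain ⟨C, hC1, hC⟩ := hCTD Γ hΓ
  refine ⟨C * (Λ2 + 3) + 3, by nlinarith, ?_⟩
  intro a η b G m εc l l0 A g J hG hm hεc hb0 hb1 hA hl0 hl1 hl2 hJ
  set E : ℝ := Real.exp (G * m) with hE
  have hEpos : 0 < E := Real.exp_pos _
  have hGm1 : (1 : ℝ) ≤ (G : ℝ) * m := by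
    have h1 : (1 : ℝ) ≤ (G : ℝ) := by exact_mod_cast hG
    have h2 : (1 : ℝ) ≤ (m : ℝ) := by exact_mod_cast hm
    nlinarith
  have hE2 : 2 ≤ E := by
    have h1 : (G : ℝ) * m + 1 ≤ E := Real.add_one_le_exp _
    linarith
  have hE1 : 1 ≤ E := by linarith
  set N : ℕ := nG G m with hN
  obtain ⟨hN1, hN2⟩ := BKA1_nG G m
  rw [← hN, ← hE] at hN1 hN2
  have hNposR : (0 : ℝ) < (N : ℝ) := by linarith
  have hNpos : 0 < N := by exact_mod_cast hNposR
  have hΛ0 : 0 < Λ2 := by linarith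
  have hE2n : Real.exp (-(2 * (G * m))) = 1 / (E * E) := by
    rw [hE, ← Real.exp_add, one_div, ← Real.exp_neg]
    congr 1
    ring
  have hεc' : εc = Real.pi / (2 * Λ2) / (E * E) := by
    rw [hεc, hE2n]; ring
  have hεpos : 0 < εc := by
    rw [hεc']; positivity
  have hpi3 : 3 < Real.pi := Real.pi_gt_three
  have hpi4 : Real.pi < 3.15 := Real.pi_lt_d2
  -- the cell constant
  have hcE : Real.pi / (2 * Λ2) ≤ N * εc * E := by
    rw [hεc']
    have h1 : (N : ℝ) * (Real.pi / (2 * Λ2) / (E * E)) * E = Real.pi / (2 * Λ2) * (N / E) := by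
      field_simp
    rw [h1]
    have h2 : 1 ≤ (N : ℝ) / E := by rw [le_div_iff₀ hEpos]; linarith
    have h3 : 0 < Real.pi / (2 * Λ2) := by positivity
    nlinarith
  have hNε : N * εc ≤ Real.pi / Λ2 / E := by
    rw [hεc']
    have h1 : (N : ℝ) * (Real.pi / (2 * Λ2) / (E * E)) = Real.pi / Λ2 / E * (N / (2 * E)) := by
      field_simp
    rw [h1]
    have h2 : (N : ℝ) / (2 * E) ≤ 1 := by rw [div_le_one (by positivity)]; linarith
    have h3 : 0 < Real.pi / Λ2 / E := by positivity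
    nlinarith
  have hJb : ∀ j ∈ J, |(j : ℝ) * εc| ≤ 3 / 10 := fun j hj => (hJ j hj).1
  constructor
  · -- size
    intro d hd
    rw [DJ, Finset.mem_image] at hd
    obtain ⟨j, hj, rfl⟩ := hd
    rw [← hN]
    obtain ⟨h1, h2⟩ := BKA1_div j N hNpos
    set d : ℤ := j / (N : ℤ)
    have h3 := abs_le.1 (hJb j hj)
    have h4 : |(j : ℝ)| ≤ 3 / 10 / εc := by
      rw [le_div_iff₀ hεpos]
      have h40 := hJb j hj
      rw [abs_mul, abs_of_pos hεpos] at h40
      exact h40
    have h5 : 3 / 10 / εc ≤ Λ2 * E * N := by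
      rw [div_le_iff₀ hεpos]
      have h6 : Λ2 * E * N * εc = Λ2 * (N * εc * E) := by ring
      rw [h6]
      have h7 : Λ2 * (Real.pi / (2 * Λ2)) = Real.pi / 2 := by field_simp
      have h8 : Λ2 * (Real.pi / (2 * Λ2)) ≤ Λ2 * (N * εc * E) := mul_le_mul_of_nonneg_left hcE hΛ0.le
      rw [h7] at h8
      linarith
    have h6 := abs_le.1 (h4.trans h5)
    have h9 : |(d : ℝ)| ≤ Λ2 * E + 1 := by
      rw [abs_le]
      constructor
      · by_contra hc
        push Not at hc
        have h10 : (d : ℝ) * N < -(Λ2 * E + 1) * N := mul_lt_mul_of_pos_right hc hNposR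
        nlinarith
      · by_contra hc
        push Not at hc
        have h10 : (Λ2 * E + 1) * N < (d : ℝ) * N := mul_lt_mul_of_pos_right hc hNposR
        nlinarith
    refine h9.trans ?_
    have h11 : Λ2 * E + 1 ≤ (Λ2 + 1) * E := by linarith
    have h12 : Λ2 + 1 ≤ C * (Λ2 + 3) + 3 := by nlinarith
    have h13 : (Λ2 + 1) * E ≤ (C * (Λ2 + 3) + 3) * E := mul_le_mul_of_nonneg_right h12 hEpos.le
    exact h11.trans h13
  · intro i hiG y
    rcases Nat.eq_zero_or_pos i with hi0 | hi1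
    · subst hi0
      have h1 : Real.exp (((0 : ℕ) : ℝ) * m) = 1 := by simp
      have h2 : Real.exp ((a + η) * (((0 : ℕ) : ℝ) * m)) = 1 := by simp
      rw [h1, h2]
      have h3 : (((DJ G m J).filter fun d : ℤ => |(d : ℝ) - y| ≤ 1).card : ℝ) ≤ 2 + 1 := by
        refine BKA1_cnt _ (y - 1) 2 (by norm_num) ?_
        intro d hd
        have h4 := abs_le.1 (Finset.mem_filter.1 hd).2
        constructor <;> linarith
      have h5 : 0 ≤ C * (Λ2 + 3) := by positivity
      linarith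
    · set F : ℝ := Real.exp (i * m) with hF
      have hFpos : 0 < F := Real.exp_pos _
      have hF1 : 1 ≤ F := Real.one_le_exp (by positivity)
      set D' : Finset ℤ := (DJ G m J).filter fun d : ℤ => |(d : ℝ) - y| ≤ F with hD'
      -- choose one `j` for every `d`
      have hch : ∀ d : ℤ, ∃ j : ℤ, d ∈ D' → j ∈ J ∧ j / (N : ℤ) = d := by
        intro d
        by_cases hd : d ∈ D'
        · have h1 := (Finset.mem_filter.1 hd).1
          rw [DJ, Finset.mem_image] at h1
          obtain ⟨j, hj, hjd⟩ := h1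
          exact ⟨j, fun _ => ⟨hj, hjd⟩⟩
        · exact ⟨0, fun h => absurd h hd⟩
      choose f hf using hch
      have hfinj : Set.InjOn f (D' : Set ℤ) := by
        intro d hd d' hd' hdd
        have h1 := (hf d (Finset.mem_coe.1 hd)).2
        have h2 := (hf d' (Finset.mem_coe.1 hd')).2
        rw [← h1, ← h2, hdd]
      have hcard : (D'.image f).card = D'.card := Finset.card_image_of_injOn hfinj
      have hs0 : 0 ≤ ((G : ℝ) - i) * m := by
        have h1 : (i : ℝ) ≤ G := by exact_mod_cast hiG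
        have h2 : (0 : ℝ) ≤ m := by positivity
        exact mul_nonneg (by linarith) h2
      have hk0 : 0 ≤ (i : ℝ) * m := by positivity
      have hsk : ((G : ℝ) - i) * m + i * m = G * m := by ring
      have hes : Real.exp (-(((G : ℝ) - i) * m)) = F / E := by
        rw [hF, hE, ← Real.exp_sub]
        congr 1
        ring
      have hten : 10 * εc ≤ Real.exp (-((((G : ℝ) - i) * m) + i * m)) := by
        rw [hsk]
        have h1 : Real.exp (-((G : ℝ) * m)) = 1 / E := by rw [hE, Real.exp_neg, one_div]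
        rw [h1, hεc', le_div_iff₀ hEpos]
        have h2 : 10 * (Real.pi / (2 * Λ2) / (E * E)) * E = 5 * Real.pi / (Λ2 * E) := by
          field_simp
          ring
        rw [h2, div_le_one (by positivity)]
        nlinarith
      have key := hC (16 * b) (((G : ℝ) - i) * m) (i * m) εc l l0 (y * N * εc) (A i) g (D'.image f) (by linarith) (by linarith) hs0 hk0 hεpos hten hl0 hl1 hl2 ?_
      · rw [hsk] at key
        -- few `d` in one cell
        have hfib : ((D'.image f).card : ℝ) ≤ (Λ2 + 3) * (((D'.image f).image fun j : ℤ => ⌊(j : ℝ) * εc * E⌋).card : ℝ) := by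
          have h1 : ∀ v ∈ (D'.image f).image (fun j : ℤ => ⌊(j : ℝ) * εc * E⌋), (((D'.image f).filter fun j : ℤ => ⌊(j : ℝ) * εc * E⌋ = v).card) ≤ ⌊Λ2 + 3⌋₊ := by
            intro v _
            set S : Finset ℤ := (D'.image f).filter fun j : ℤ => ⌊(j : ℝ) * εc * E⌋ = v with hS
            have h2 : S.card = (S.image fun j : ℤ => j / (N : ℤ)).card := by
              refine (Finset.card_image_of_injOn ?_).symm
              intro j hj j' hj' hjj
              have hj1 := (Finset.mem_filter.1 (Finset.mem_coe.1 hj)).1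
              have hj1' := (Finset.mem_filter.1 (Finset.mem_coe.1 hj')).1
              obtain ⟨d, hd, rfl⟩ := Finset.mem_image.1 hj1
              obtain ⟨d', hd', rfl⟩ := Finset.mem_image.1 hj1'
              have h3 := (hf d hd).2
              have h4 := (hf d' hd').2
              simp only at hjj
              rw [h3, h4] at hjj
              rw [hjj]
            refine Nat.le_floor ?_
            rw [h2]
            have hc'pos : 0 < (N : ℝ) * εc * E := by positivity
            have hinv : 1 / (N * εc * E) ≤ Λ2 := by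
              rw [div_le_iff₀ hc'pos]
              have h8 : Λ2 * (Real.pi / (2 * Λ2)) ≤ Λ2 * (N * εc * E) := mul_le_mul_of_nonneg_left hcE hΛ0.le
              have h7 : Λ2 * (Real.pi / (2 * Λ2)) = Real.pi / 2 := by field_simp
              rw [h7] at h8
              linarith
            have h5 := BKA1_cnt (S.image fun j : ℤ => j / (N : ℤ)) ((v : ℝ) / (N * εc * E) - 1) (1 + 1 / (N * εc * E)) (by positivity) ?_
            · linarith
            · intro d hd
              obtain ⟨j, hj, rfl⟩ := Finset.mem_image.1 hd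
              have hjv := (Finset.mem_filter.1 hj).2
              have h6 := Int.floor_eq_iff.1 hjv
              obtain ⟨h9, h10⟩ := BKA1_div j N hNpos
              set d : ℤ := j / (N : ℤ)
              have hεE : 0 < εc * E := by positivity
              have e1 : (v : ℝ) / (N * εc * E) ≤ d + 1 := by
                rw [div_le_iff₀ hc'pos]
                have : (j : ℝ) * (εc * E) ≤ (d * N + N) * (εc * E) := mul_le_mul_of_nonneg_right h10.le hεE.le
                nlinarith [h6.1]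
              have e2 : (d : ℝ) ≤ (v + 1) / (N * εc * E) := by
                rw [le_div_iff₀ hc'pos]
                have : (d * N : ℝ) * (εc * E) ≤ j * (εc * E) := mul_le_mul_of_nonneg_right h9 hεE.le
                nlinarith [h6.2]
              constructor
              · linarith
              · rw [add_div] at e2
                linarith
          have h2 := Finset.card_le_mul_card_image (D'.image f) ⌊Λ2 + 3⌋₊ h1
          have h3 : ((D'.image f).card : ℝ) ≤ (⌊Λ2 + 3⌋₊ : ℝ) * (((D'.image f).image fun j : ℤ => ⌊(j : ℝ) * εc * E⌋).card : ℝ) := by exact_mod_cast h2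
          have h4 : (⌊Λ2 + 3⌋₊ : ℝ) ≤ Λ2 + 3 := Nat.floor_le (by linarith)
          have h5 : (0 : ℝ) ≤ (((D'.image f).image fun j : ℤ => ⌊(j : ℝ) * εc * E⌋).card : ℝ) := by positivity
          nlinarith
        rw [hcard] at hfib
        have h6 := hA i hi1 hiG
        have h7 : C * ((A i).card : ℝ) ≤ C * Real.exp ((a + η) * (i * m)) := mul_le_mul_of_nonneg_left h6 (by linarith)
        have h8 : 0 < Real.exp ((a + η) * ((i : ℝ) * m)) := Real.exp_pos _
        calc ((D'.card : ℕ) : ℝ) ≤ (Λ2 + 3) * (((D'.image f).image fun j : ℤ => ⌊(j : ℝ) * εc * E⌋).card : ℝ) := hfib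
          _ ≤ (Λ2 + 3) * (C * Real.exp ((a + η) * (i * m))) := mul_le_mul_of_nonneg_left (key.trans h7) (by linarith)
          _ ≤ (C * (Λ2 + 3) + 3) * Real.exp ((a + η) * (i * m)) := by nlinarith
      · intro j hj
        obtain ⟨d, hd, rfl⟩ := Finset.mem_image.1 hj
        obtain ⟨hjJ, hjd⟩ := hf d hd
        constructor
        · rw [hes]
          have h1 := (Finset.mem_filter.1 hd).2
          obtain ⟨h2, h3⟩ := BKA1_div (f d) N hNpos
          rw [hjd] at h2 h3
          have h4 := abs_le.1 h1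
          have h5 : |((f d : ℤ) : ℝ) - y * N| ≤ (F + 1) * N := by
            rw [abs_le]
            constructor
            · nlinarith
            · nlinarith
          have h6 : ((f d : ℤ) : ℝ) * εc - y * N * εc = (((f d : ℤ) : ℝ) - y * N) * εc := by ring
          rw [h6, abs_mul, abs_of_pos hεpos]
          have h7 : |((f d : ℤ) : ℝ) - y * N| * εc ≤ (F + 1) * N * εc := mul_le_mul_of_nonneg_right h5 hεpos.le
          refine h7.trans ?_
          have h8 : (F + 1) * N * εc = (F + 1) * (N * εc) := by ring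
          rw [h8]
          have h9 : (F + 1) * (N * εc) ≤ (2 * F) * (Real.pi / Λ2 / E) := by
            refine mul_le_mul (by linarith) hNε (by positivity) (by positivity)
          refine h9.trans ?_
          have h10 : 2 * F * (Real.pi / Λ2 / E) = 2 * Real.pi / Λ2 * (F / E) := by
            field_simp
          rw [h10]
          have h11 : 2 * Real.pi / Λ2 ≤ 1 := by
            rw [div_le_one hΛ0]
            linarith
          have h12 : 0 < F / E := by positivity
          nlinarith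
        · refine BKA1_JC_mono ?_ (hJ (f d) hjJ)
          intro k hk
          have h1 := hk i hi1 hiG
          rw [mem_setOf_eq, hsk]
          have h2 : k * aM (-(2 * (G * m))) * aM (G * m) = k * aM (-((G : ℝ) * m)) := by
            rw [mul_assoc, ← BKA1_aM]
            congr 2
            ring
          rw [h2] at h1
          exact h1

/-- **The counting half of BKA** in the form of the split (`C1` may depend on everything). -/
theorem BKA1_AR (hCTD : CTD_stmt) : ∀ Γ : Subgroup SL(2, ℝ), QU.SurfaceGroup Γ → ∀ (Λ2 a η b : ℝ) (G : ℕ), 10 ≤ Λ2 → 0 ≤ a → 0 < η → 1 ≤ G → 0 < b → b ≤ 1 / 1600 → ∃ (C1 : ℝ) (m0 : ℕ), 1 ≤ C1 ∧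
    ∀ (m : ℕ) (εc : ℝ) (A : ℕ → Finset SL(2, ℝ)), m0 ≤ m → εc = Real.pi / (2 * Λ2) * Real.exp (-(2 * (G * m))) → (∀ i : ℕ, 1 ≤ i → i ≤ G → ((A i).card : ℝ) ≤ Real.exp ((a + η) * (i * m))) →
      ∀ (l l0 : ℝ) (g : SL(2, ℝ)) (J : Finset ℤ), 0 ≤ l → l ≤ l0 → l0 ≤ εc / 100 →
        (∀ j ∈ J, IR.JC {k | ∀ i : ℕ, 1 ≤ i → i ≤ G → k * aM (-(2 * (G * m))) * aM (G * m) ∈ FW Γ (A i) (16 * b) (Real.exp (-(i * m)))} εc l l0 g j) → AR C1 a η G m (DJ G m J) := by
  intro Γ hΓ Λ2 a η b G hΛ _ _ hG hb0 hb1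
  obtain ⟨C1, hC1, h⟩ := BKA1_gen hCTD Γ hΓ Λ2 hΛ
  refine ⟨C1, 1, hC1, ?_⟩
  intro m εc A hm hεc hA l l0 g J hl0 hl1 hl2 hJ
  exact h a η b G m εc l l0 A g J hG hm hεc hb0 hb1 hA hl0 hl1 hl2 hJ

end

end Pool.Agent.LP
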