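import Pool.Agent.helper25.HH.HHFin
import Pool.Agent.helper84.LP.SpecG
import Pool.Agent.helper52.CG.Spec

/-!
# MP_07c750: the final theorem of the projects T1, HH, LP, CG
-/

set_option autoImplicit false

open scoped MatrixGroups ContDiff Topology UpperHalfPlane ENNReal NNReal
open UpperHalfPlane MeasureTheory Filter Set

namespace Pool.Agent.LP

open Pool.Agent.RS
open Pool.Agent.MS (bq BB BA SF pf)
open Pool.Agent.EN (XG MG mkX mkM fl pr)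
open Pool.Agent.ER (Low)
open Pool.Agent.IR (loc)

/-- the reflection inequality and the uniform part, for a measure with the property `MP` -/
theorem lp_core (hLPM : LPM_stmt) (hUPA : UPA_stmt) (hCOL : COL_stmt) (Γ : Subgroup SL(2, ℝ)) (F F₀ : Set ℍ) (β α : ℝ → ℝ) (r : ℕ → ℝ) (φ : ℕ → ℍ → ℂ)
    (μ : Measure (XG Γ)) (ν : Measure (MG Γ)) (hΓ : QU.SurfaceGroup Γ) (hF : IsFundamentalDomain Γ F (volume : Measure ℍ)) (hF₀ : QU.NiceDom Γ F₀)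
    (hβ : BB (1 / 4) β) (hα : BA (1 / 8) α) (hr : Tendsto r atTop atTop) (hφ : ∀ k, Eig Γ (r k) (φ k)) (hn : ∀ k, nn F₀ (φ k) = 1) (hfin : IsFiniteMeasure ν)
    (hμ : IsProbabilityMeasure μ) (hfl : ∀ t, μ.map (fl Γ t) = μ) (hmap : μ.map (pr Γ) = ν) (hMP : IR.MP Γ F₀ β α r φ μ) :
    (∀ a h : ℝ, 0 ≤ a → a < 1 / 2 → 0 ≤ h → h < 1 → 2 * a * (1 + h) < 2 - h → μ (Low Γ μ h) + μ (Low Γ μ a) ≤ 1) ∧
      ∀ A : Set (MG Γ), MeasurableSet A → μ (Low Γ μ (1 / 4)) * (volume (F ∩ {z : ℍ | mkM Γ z ∈ A}) / volume F) ≤ ν A := by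
  obtain ⟨K, hK, HK⟩ := IR.core_gp Γ F₀ β α hΓ hF₀ hβ hα
  have hGP : IR.GP Γ μ K := HK r φ μ hr hφ hn hμ hMP
  obtain ⟨-, hprc, -⟩ := EN.A_XFL Γ
  refine ⟨fun a h ha ha1 hh hh1 hc => ?_, fun A hA => ?_⟩
  · exact IR.all_enn μ _ _ (hLPM Γ μ K a h (Low Γ μ h) hΓ hμ hfl hK hGP ha ha1 hh hh1 hc (hCOL Γ μ h hΓ hμ hfl hh))
  · have hCRE : ∀ V : MG Γ → ℝ, Continuous V → (∀ x, 0 ≤ V x ∧ V x ≤ 1) →
        μ.real (Low Γ μ (1 / 4)) * ((∫ z in F₀, V (mkM Γ z)) / (volume F₀).toReal) ≤ ∫ x, V x ∂ν := by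
      intro V hV h01
      have h1 := hUPA Γ F₀ μ K (1 / 4) V hΓ hF₀ hμ hfl hK hGP (by norm_num) le_rfl hV h01
      rw [← hmap, integral_map hprc.measurable.aemeasurable hV.measurable.aestronglyMeasurable]
      exact h1
    have h4 := IR.UP_fnm EN.A_XTM EN.A_XFL QU.A_DOB Γ F F₀ ν hΓ hF hF₀ hfin (μ.real (Low Γ μ (1 / 4))) measureReal_nonneg hCRE A
    have hmm : Measurable (mkM Γ) := (EN.A_XFL Γ).2.2.2.2.2.1.measurable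
    rw [Measure.smul_apply, Measure.smul_apply, Measure.map_apply hmm hA,
      Measure.restrict_apply (hmm hA), ofReal_measureReal (measure_ne_top μ _), smul_eq_mul, smul_eq_mul] at h4
    rw [ENNReal.div_eq_inv_mul, Set.inter_comm]
    exact h4

/-- **T1 + HH + LP + CG**, with one absolute constant -/
theorem lp_final (hFN2 : T1.FN2_stmt) (hHAL : HH.HAL_stmt) (hLPM : LPM_stmt) (hUPA : UPA_stmt) (hCOL : COL_stmt) (hCGM : CG.CGM_stmt) :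
    ∃ c : ℝ, 0 < c ∧ ∀ (Γ : Subgroup SL(2, ℝ)) (F : Set ℍ) (r : ℕ → ℝ) (φ : ℕ → ℍ → ℂ) (ν : Measure (MG Γ)), QU.SurfaceGroup Γ →
    IsFundamentalDomain Γ F (volume : Measure ℍ) → Tendsto r atTop atTop → (∀ k, Eig Γ (r k) (φ k)) → (∀ k, ∫ z in F, ‖φ k z‖ ^ 2 = 1) → IsFiniteMeasure ν →
    (∀ V : MG Γ → ℝ, Continuous V → Tendsto (fun k => ∫ z in F, V (mkM Γ z) * ‖φ k z‖ ^ 2) atTop (𝓝 (∫ x, V x ∂ν))) →
    (∃ μ : Measure (XG Γ), IsProbabilityMeasure μ ∧ (∀ t, μ.map (fl Γ t) = μ) ∧ μ.map (pr Γ) = ν ∧ (∀ a, MeasurableSet (Low Γ μ a)) ∧ Measurable (loc Γ μ) ∧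
      1 / 2 + c ≤ ∫ x, loc Γ μ x ∂μ ∧ μ (Low Γ μ (1 / 2 + 1 / 10 ^ 7)) ≤ 1 / 2 ∧ μ (Low Γ μ c) ≤ ENNReal.ofReal (1 / 2 - c) ∧
      (∀ a h : ℝ, 0 ≤ a → a < 1 / 2 → 0 ≤ h → h < 1 → 2 * a * (1 + h) < 2 - h → μ (Low Γ μ h) + μ (Low Γ μ a) ≤ 1) ∧
      (∀ A : Set (MG Γ), MeasurableSet A → μ (Low Γ μ (1 / 4)) * (volume (F ∩ {z : ℍ | mkM Γ z ∈ A}) / volume F) ≤ ν A)) ∧
      MeasurableSet (CG.CGset Γ) ∧ ν (CG.CGset Γ) ≤ ENNReal.ofReal (1 / 2 - c) := by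
  obtain ⟨-, -, -, -, -, hex⟩ := MS.A_STB
  obtain ⟨β, hβ⟩ := (hex (1 / 4) (by norm_num)).2
  obtain ⟨α, hα'⟩ := (hex (1 / 8) (by norm_num)).1
  obtain ⟨c, ρ0, hc, hρ, HFN⟩ := hFN2 β α hβ hα'
  obtain ⟨c', hc', HM⟩ := HH.A_MEA (min c (1 / 2)) (min ρ0 (1 / 2)) (1 / 10000000) (lt_min hc (by norm_num)) (min_le_right _ _) (lt_min hρ (by norm_num)) (min_le_right _ _) (by norm_num)
  refine ⟨min (min c ρ0) c', lt_min (lt_min hc hρ) hc', ?_⟩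
  have l1 : min (min c ρ0) c' ≤ c' := min_le_right _ _
  have l2 : min (min c ρ0) c' ≤ ρ0 := (min_le_left _ _).trans (min_le_right _ _)
  have l3 : min (min c ρ0) c' ≤ c := (min_le_left _ _).trans (min_le_left _ _)
  have l0 : 0 < min (min c ρ0) c' := lt_min (lt_min hc hρ) hc'
  intro Γ F r φ ν hΓ hF hr hφ hn hfin hν
  obtain ⟨F₀, hF₀, hn0, μ, hμ, hfl, hmap, hMP, HU⟩ := IR.core_lift β α hβ hα' Γ F r φ ν hΓ hF hr hφ hn hfin hν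
  have H2 : ∀ a : ℝ, 1 / 2 ≤ a → a < 1 → μ (Low Γ μ a) + μ (Low Γ μ ((1 - a) * (1 + (2 * a - 1) / 200))) ≤ 1 :=
    fun a ha ha1 => IR.core Γ F₀ β α r φ μ hΓ hF₀ hβ hα' hr hφ hn0 hμ hfl hMP a ha ha1
  obtain ⟨hm, h01, hle, hmean⟩ := IR.core_mean Γ μ hΓ hμ H2
  have h5 : μ.real (Low Γ μ ρ0) ≤ 1 / 2 - c := HFN Γ F₀ r φ μ hΓ hF₀ hr hφ hn0 hμ hfl hMP
  have h6 : μ.real (Low Γ μ (1 / 2 + 1 / 10000000)) ≤ 1 / 2 := HH.half_of_HAL hHAL Γ F₀ β α r φ μ hΓ hF₀ hβ hα' hr hφ hn0 hμ hfl hMP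
  have h7 : μ.real (Low Γ μ (min ρ0 (1 / 2))) ≤ 1 / 2 - min c (1 / 2) := by
    refine le_trans (measureReal_mono (IR.all_mono Γ μ _ ρ0 (min_le_left _ _))) (le_trans h5 ?_)
    linarith [min_le_left c (1 / 2 : ℝ)]
  obtain ⟨hR, hU⟩ := lp_core hLPM hUPA hCOL Γ F F₀ β α r φ μ ν hΓ hF hF₀ hβ hα' hr hφ hn0 hfin hμ hfl hmap hMP
  have e7 : (1 / 10 ^ 7 : ℝ) = 1 / 10000000 := by norm_num
  have h8 : μ (Low Γ μ (min (min c ρ0) c')) ≤ ENNReal.ofReal (1 / 2 - min (min c ρ0) c') := by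
    rw [← ofReal_measureReal (measure_ne_top μ _)]
    refine ENNReal.ofReal_le_ofReal ((measureReal_mono (IR.all_mono Γ μ _ ρ0 l2)).trans (h5.trans ?_))
    linarith
  obtain ⟨hCm, hCn⟩ := hCGM Γ μ hΓ hμ hfl
  refine ⟨⟨μ, hμ, hfl, hmap, fun a => ER.Low_meas Γ hΓ μ hμ a, hm, ?_, ?_, h8, hR, hU⟩, hCm, ?_⟩
  · have h9 : 1 / 2 + c' ≤ ∫ x, loc Γ μ x ∂μ := by
      refine HM (XG Γ) μ (loc Γ μ) hμ hm h01 ?_ ?_ hmean
      · rw [hle _ (lt_min hρ (by norm_num)).le (lt_of_le_of_lt (min_le_right _ _) (by norm_num))]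
        exact h7
      · rw [hle _ (by norm_num) (by norm_num)]
        exact h6
    linarith
  · rw [e7, ← ofReal_measureReal (measure_ne_top μ _)]
    refine (ENNReal.ofReal_le_ofReal h6).trans (le_of_eq ?_)
    rw [ENNReal.ofReal_div_of_pos two_pos]
    simp
  · rw [← hmap]
    exact hCn.trans ((measure_mono (IR.all_mono Γ μ _ _ l0.le)).trans h8)

end Pool.Agent.LP
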